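import Mathlib
import Pool.Agent.Lib.MP_8e1749_lc.Defs
import Pool.Agent.Lib.MP_8e1749_lc.Stretch
import Pool.Agent.Lib.MP_8e1749_lc.NegDefs
import Pool.Agent.Lib.MP_8e1749_lc.NegCard

/-!
# Modularity of total termination: the complete answer

Total termination is modular for disjoint term rewrite systems over signatures with at most `κ`
function symbols if and only if `κ` is countable; the same holds if the question is restricted to
pairs of systems that both have a duplicating rule (the case in which it was open).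
-/

namespace Pool.Agent.Results.MP_8e1749_lc.ModularIffCountable

open FirstOrder Pool.Agent.TotalTermination Cardinal

/-- For a cardinal `κ`, consider the statement that for all disjoint term rewrite systems `R₁`,
`R₂` over signatures with at most `κ` function symbols (and at least one constant each) the union
of `R₁` and `R₂` is totally terminating whenever both `R₁` and `R₂` are. This statement holds if
and only if `κ ≤ ℵ₀`, and its restriction to pairs `R₁`, `R₂` that both have a duplicating rule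
holds if and only if `κ ≤ ℵ₀`. -/
theorem result (κ : Cardinal.{0}) :
    ((∀ (L₁ L₂ : FirstOrder.Language.{0, 0}) (R₁ : TRS L₁) (R₂ : TRS L₂),
      Nonempty L₁.Constants → Nonempty L₂.Constants →
      #(Σ n, L₁.Functions n) ≤ κ → #(Σ n, L₂.Functions n) ≤ κ →
      R₁.TotallyTerminating → R₂.TotallyTerminating →
      (R₁.disjointUnion R₂).TotallyTerminating) ↔ κ ≤ ℵ₀) ∧
    ((∀ (L₁ L₂ : FirstOrder.Language.{0, 0}) (R₁ : TRS L₁) (R₂ : TRS L₂),
      Nonempty L₁.Constants → Nonempty L₂.Constants →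
      #(Σ n, L₁.Functions n) ≤ κ → #(Σ n, L₂.Functions n) ≤ κ →
      R₁.HasDuplicatingRule → R₂.HasDuplicatingRule →
      R₁.TotallyTerminating → R₂.TotallyTerminating →
      (R₁.disjointUnion R₂).TotallyTerminating) ↔ κ ≤ ℵ₀) := by
  have hneg : (∀ (L₁ L₂ : FirstOrder.Language.{0, 0}) (R₁ : TRS L₁) (R₂ : TRS L₂),
      Nonempty L₁.Constants → Nonempty L₂.Constants →
      #(Σ n, L₁.Functions n) ≤ κ → #(Σ n, L₂.Functions n) ≤ κ →
      R₁.HasDuplicatingRule → R₂.HasDuplicatingRule →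
      R₁.TotallyTerminating → R₂.TotallyTerminating →
      (R₁.disjointUnion R₂).TotallyTerminating) → κ ≤ ℵ₀ := by
    intro h
    by_contra hκ
    rw [not_le] at hκ
    have h1 : ℵ_ 1 ≤ κ := by
      rw [← Cardinal.succ_aleph0]
      exact Order.succ_le_of_lt hκ
    have h2 : #(Σ n, L₁.Functions n) ≤ κ :=
      (Cardinal.mk_le_aleph0_iff.2 countable₁).trans hκ.le
    have h3 : #(Σ n, L₂.Functions n) ≤ κ := card₂.trans_le h1
    exact not_totallyTerminating_union (h L₁ L₂ R₁ R₂ nonempty_constants₁ nonempty_constants₂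
      h2 h3 hasDup₁ hasDup₂ totallyTerminating₁ totallyTerminating₂)
  have hpos : κ ≤ ℵ₀ → ∀ (L₁ L₂ : FirstOrder.Language.{0, 0}) (R₁ : TRS L₁) (R₂ : TRS L₂),
      Nonempty L₁.Constants → Nonempty L₂.Constants →
      #(Σ n, L₁.Functions n) ≤ κ → #(Σ n, L₂.Functions n) ≤ κ →
      R₁.TotallyTerminating → R₂.TotallyTerminating →
      (R₁.disjointUnion R₂).TotallyTerminating := by
    intro hκ L₁ L₂ R₁ R₂ _ _ hc₁ hc₂ h₁ h₂
    have : Countable (Σ n, L₁.Functions n) := Cardinal.mk_le_aleph0_iff.1 (hc₁.trans hκ)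
    have : Countable (Σ n, L₂.Functions n) := Cardinal.mk_le_aleph0_iff.1 (hc₂.trans hκ)
    obtain ⟨M₁, hM₁⟩ := h₁.exists_monoAlg_omega
    obtain ⟨M₂, hM₂⟩ := h₂.exists_monoAlg_omega
    exact TRS.TotallyTerminating.of_monoAlg (M₁.sum M₂) (hM₁.sum hM₂)
  exact ⟨⟨fun h => hneg fun L₁ L₂ R₁ R₂ n₁ n₂ c₁ c₂ _ _ => h L₁ L₂ R₁ R₂ n₁ n₂ c₁ c₂, hpos⟩,
    ⟨hneg, fun hκ L₁ L₂ R₁ R₂ n₁ n₂ c₁ c₂ _ _ => hpos hκ L₁ L₂ R₁ R₂ n₁ n₂ c₁ c₂⟩⟩

end Pool.Agent.Results.MP_8e1749_lc.ModularIffCountable
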